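import Pool.Agent.Helper60.T3.GoalsI

/-!
# T3-DEX: a derivation over `κ` with prescribed value at a transcendental element, and its kernel

`exists_isTranscendenceBasis_superset` and `DERF` give the derivation.  Kernel: the constants `F` of `D` form
an intermediate field of `L / κ`; an element algebraic over `F` is a constant.  If `z ∈ F` is algebraic over `κ(x)` and
not in `κ` then `z` is transcendental over `κ`, and by exchange `x` is algebraic over `κ(z) ⊆ F`, so `D x = 0`.
-/

set_option autoImplicit false

namespace Pool.Agent.Helper79.T3.DEX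

/-- the constants of a derivation of a field -/
def cst {κ L : Type} [Field κ] [Field L] [Algebra κ L] (D : Derivation κ L L) :
    IntermediateField κ L where
  carrier := {y | D y = 0}
  mul_mem' := by
    intro a b ha hb
    simp only [Set.mem_ofPred_eq] at ha hb ⊢
    rw [D.leibniz, ha, hb]; simp
  one_mem' := by simp
  add_mem' := by
    intro a b ha hb
    simp only [Set.mem_ofPred_eq] at ha hb ⊢
    rw [map_add, ha, hb, add_zero]
  zero_mem' := by simp
  algebraMap_mem' := by intro r; simp
  inv_mem' := by
    intro a ha
    simp only [Set.mem_ofPred_eq] at ha ⊢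
    rw [D.leibniz_inv, ha]; simp

theorem mem_cst {κ L : Type} [Field κ] [Field L] [Algebra κ L] (D : Derivation κ L L) (y : L) :
    y ∈ cst D ↔ D y = 0 := Iff.rfl

/-- `D` as a derivation over its constants -/
def dc {κ L : Type} [Field κ] [Field L] [Algebra κ L] (D : Derivation κ L L) :
    Derivation (cst D) L L where
  toFun := D
  map_add' := fun a b => map_add D a b
  map_smul' := by
    intro c a
    have hc : D (c : L) = 0 := c.2
    rw [Algebra.smul_def, RingHom.id_apply]
    change D ((c : L) * a) = _
    rw [D.leibniz, hc, smul_zero, add_zero, Algebra.smul_def]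
    rfl
  map_one_eq_zero' := by
    change D 1 = 0
    simp
  leibniz' := fun a b => D.leibniz a b

theorem alg_cst {κ L : Type} [Field κ] [CharZero κ] [Field L] [Algebra κ L]
    (D : Derivation κ L L) (y : L) (hy : IsAlgebraic (cst D) y) : D y = 0 := by
  have hc : CharZero (cst D) := charZero_of_injective_algebraMap (algebraMap κ (cst D)).injective
  have hi : IsIntegral (cst D) y := hy.isIntegral
  have h0 : (dc D) (Polynomial.aeval y (minpoly (cst D) y)) = 0 := by
    rw [minpoly.aeval, map_zero]
  rw [Derivation.map_aeval] at h0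
  have h1 : Polynomial.aeval y (Polynomial.derivative (minpoly (cst D) y)) ≠ 0 :=
    (minpoly.irreducible hi).separable.aeval_derivative_ne_zero (minpoly.aeval _ _)
  rcases smul_eq_zero.1 h0 with h2 | h2
  · exact absurd h2 h1
  · exact h2

theorem t (h : Pool.Agent.Helper92.UQ.DERF) : Pool.Agent.Helper60.T3.S_DEX := by
  intro κ L _ _ _ _ _ x v hx hv
  classical
  have hind : AlgebraicIndepOn κ id ({x} : Set L) :=
    algebraicIndependent_unique_type_iff.mpr hx
  obtain ⟨u, hsu, hu⟩ := exists_isTranscendenceBasis_superset hind
  have hxu : x ∈ u := hsu rfl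
  obtain ⟨D, hD⟩ := h κ L u ((↑) : u → L) (fun i => if (i : L) = x then v else 0) hu
  have hDx : D x = v := by
    have h1 := hD ⟨x, hxu⟩
    simpa using h1
  refine ⟨D, hDx, ?_⟩
  intro z hz hDz
  by_contra hzr
  have hzt : Transcendental κ z := by
    intro hza
    have hzi : IsIntegral κ z := hza.isIntegral
    have hq : (minpoly κ z).leadingCoeff = 1 := minpoly.monic hzi
    have hd : (minpoly κ z).degree = 1 :=
      IsAlgClosed.degree_eq_one_of_irreducible κ (minpoly.irreducible hzi)
    have ha : Polynomial.aeval z (minpoly κ z) = 0 := minpoly.aeval κ z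
    rw [Polynomial.eq_X_add_C_of_degree_eq_one hd, hq, Polynomial.C_1, one_mul, map_add,
      Polynomial.aeval_X, Polynomial.aeval_C, add_eq_zero_iff_eq_neg] at ha
    exact hzr ⟨-(minpoly κ z).coeff 0, by rw [map_neg]; exact ha.symm⟩
  have h1 : IsAlgebraic (Algebra.adjoin κ {x}) z := IntermediateField.isAlgebraic_adjoin_iff.1 hz
  have h2 : IsAlgebraic (Algebra.adjoin κ {z}) x := IsAlgebraic.adjoin_singleton hx hzt h1
  have h3 : IsAlgebraic (IntermediateField.adjoin κ {z}) x :=
    IntermediateField.isAlgebraic_adjoin_iff.2 h2
  have hle : IntermediateField.adjoin κ {z} ≤ cst D := by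
    rw [IntermediateField.adjoin_simple_le_iff]
    exact hDz
  have h4 : IsAlgebraic (cst D) x := by
    obtain ⟨p, hp, hpx⟩ := h3
    refine ⟨p.map (IntermediateField.inclusion hle).toRingHom, ?_, ?_⟩
    · intro h0
      exact hp ((Polynomial.map_eq_zero_iff (IntermediateField.inclusion hle).toRingHom.injective).1 h0)
    · rw [Polynomial.aeval_def, Polynomial.eval₂_map]
      rw [Polynomial.aeval_def] at hpx
      exact hpx
  have h5 := alg_cst D x h4
  rw [hDx] at h5
  exact hv h5

end Pool.Agent.Helper79.T3.DEX
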