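import Pool.Agent.Helper47.T3.Goals

/-!
# Packet FLG-T3C (MP_c98eff_gt): the connection of `dr²/r² + g` in the quaternionic frame

A general Koszul formula for the Christoffel symbols in coordinates is applied to the linear vector fields
`x e_1, x e_2, x e_3, x` on `ℝ⁴ \ {0}`.
-/

set_option autoImplicit false

namespace Pool.Agent.Helper47.T3

open Finset MeasureTheory Pool.Agent.Helper73 Filter Topology

namespace C

section gen

variable {n : ℕ}

/-- the differential in coordinates -/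
theorem fd_sum (f : SN.EE n → ℝ) (x v : SN.EE n) : fderiv ℝ f x v = ∑ i, SN.pd i f x * v i := by
  have h : v = ∑ i, v i • EuclideanSpace.single i (1 : ℝ) := by
    ext j
    simp [Finset.sum_apply, Pi.single_apply]
  conv_lhs => rw [h]
  rw [map_sum]
  refine Finset.sum_congr rfl fun i _ => ?_
  rw [map_smul, smul_eq_mul, mul_comm]
  rfl

theorem ip_comm {h : SN.MF n} {x : SN.EE n} (hs : ∀ a b, h x a b = h x b a) (u v : Fin (n + 1) → ℝ) :
    SN.ip h x u v = SN.ip h x v u := by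
  unfold SN.ip
  rw [Finset.sum_comm]
  refine Finset.sum_congr rfl fun i _ => Finset.sum_congr rfl fun j _ => ?_
  rw [hs j i]
  ring

theorem ip_add (h : SN.MF n) (x : SN.EE n) (u w v : Fin (n + 1) → ℝ) :
    SN.ip h x (fun c => u c + w c) v = SN.ip h x u v + SN.ip h x w v := by
  unfold SN.ip
  simp only [← Finset.sum_add_distrib]
  refine Finset.sum_congr rfl fun i _ => Finset.sum_congr rfl fun j _ => ?_
  ring

theorem ip_sub (h : SN.MF n) (x : SN.EE n) (u w v : Fin (n + 1) → ℝ) :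
    SN.ip h x (fun c => u c - w c) v = SN.ip h x u v - SN.ip h x w v := by
  unfold SN.ip
  simp only [← Finset.sum_sub_distrib]
  refine Finset.sum_congr rfl fun i _ => Finset.sum_congr rfl fun j _ => ?_
  ring

theorem ip_smul (h : SN.MF n) (x : SN.EE n) (r : ℝ) (u v : Fin (n + 1) → ℝ) :
    SN.ip h x (fun c => r * u c) v = r * SN.ip h x u v := by
  unfold SN.ip
  simp only [Finset.mul_sum]
  refine Finset.sum_congr rfl fun i _ => Finset.sum_congr rfl fun j _ => ?_
  ring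

theorem ip_sum {ι : Type} (s : Finset ι) (h : SN.MF n) (x : SN.EE n) (u : ι → Fin (n + 1) → ℝ)
    (v : Fin (n + 1) → ℝ) : SN.ip h x (fun c => ∑ k ∈ s, u k c) v = ∑ k ∈ s, SN.ip h x (u k) v := by
  unfold SN.ip
  rw [Finset.sum_comm (s := s)]
  refine Finset.sum_congr rfl fun i _ => ?_
  rw [Finset.sum_comm (s := s)]
  refine Finset.sum_congr rfl fun j _ => ?_
  rw [Finset.mul_sum, Finset.sum_mul]

theorem ip_congr {h : SN.MF n} {x : SN.EE n} {u u' v v' : Fin (n + 1) → ℝ} (hu : ∀ a, u a = u' a)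
    (hv : ∀ a, v a = v' a) : SN.ip h x u v = SN.ip h x u' v' := by
  rw [funext hu, funext hv]

/-- the trilinear form of the first derivatives of the metric -/
noncomputable def S3 (h : SN.MF n) (x : SN.EE n) (A B C : Fin (n + 1) → ℝ) : ℝ :=
  ∑ a, ∑ b, ∑ d, SN.pd a (fun y => h y b d) x * A a * B b * C d

/-- derivative of `h(Y, Z)` in direction `v` -/
theorem fd_ip (h : SN.MF n) (x v : SN.EE n) (hd : ∀ a b, DifferentiableAt ℝ (fun y => h y a b) x)
    (Y Z : SN.EE n → SN.EE n) (hY : ∀ a, DifferentiableAt ℝ (fun y => Y y a) x)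
    (hZ : ∀ a, DifferentiableAt ℝ (fun y => Z y a) x) :
    fderiv ℝ (fun y => SN.ip h y (fun a => Y y a) (fun a => Z y a)) x v =
      S3 h x (fun a => v a) (fun a => Y x a) (fun a => Z x a)
      + SN.ip h x (fun c => fderiv ℝ (fun y => Y y c) x v) (fun d => Z x d)
      + SN.ip h x (fun c => Y x c) (fun d => fderiv ℝ (fun y => Z y d) x v) := by
  have h1 : ∀ i j, HasFDerivAt (fun y : SN.EE n => h y i j * Y y i * Z y j)
      ((h x i j * Y x i) • fderiv ℝ (fun y => Z y j) x + (Z x j) •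
        (h x i j • fderiv ℝ (fun y => Y y i) x + Y x i • fderiv ℝ (fun y => h y i j) x)) x := by
    intro i j
    exact ((hd i j).hasFDerivAt.mul (hY i).hasFDerivAt).mul (hZ j).hasFDerivAt
  have h2 : HasFDerivAt (fun y : SN.EE n => SN.ip h y (fun a => Y y a) (fun a => Z y a))
      (∑ i : Fin (n + 1), ∑ j : Fin (n + 1), ((h x i j * Y x i) • fderiv ℝ (fun y => Z y j) x
        + (Z x j) • (h x i j • fderiv ℝ (fun y => Y y i) x
          + Y x i • fderiv ℝ (fun y => h y i j) x) : SN.EE n →L[ℝ] ℝ)) x := by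
    unfold SN.ip
    exact HasFDerivAt.fun_sum fun i _ => HasFDerivAt.fun_sum fun j _ => h1 i j
  rw [h2.fderiv]
  simp only [_root_.sum_apply, _root_.add_apply, _root_.smul_apply, smul_eq_mul]
  have h3 : S3 h x (fun a => v a) (fun a => Y x a) (fun a => Z x a) =
      ∑ i, ∑ j, fderiv ℝ (fun y => h y i j) x v * Y x i * Z x j := by
    unfold S3
    rw [Finset.sum_comm]
    refine Finset.sum_congr rfl fun i _ => ?_
    rw [Finset.sum_comm]
    refine Finset.sum_congr rfl fun j _ => ?_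
    rw [fd_sum, Finset.sum_mul, Finset.sum_mul]
  rw [h3]
  unfold SN.ip
  simp only [← Finset.sum_add_distrib]
  refine Finset.sum_congr rfl fun i _ => Finset.sum_congr rfl fun j _ => ?_
  ring

/-- lowered Christoffel symbols -/
theorem chr_low (h : SN.MF n) (x : SN.EE n) (hs : ∀ a b, h x a b = h x b a) (hu : IsUnit (h x).det)
    (a b d : Fin (n + 1)) : ∑ c, h x c d * SN.Chr h a b c x =
      1 / 2 * (SN.pd a (fun y => h y b d) x + SN.pd b (fun y => h y a d) x
        - SN.pd d (fun y => h y a b) x) := by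
  have h1 : ∀ l, ∑ c, h x c d * (h x)⁻¹ c l = if d = l then 1 else 0 := by
    intro l
    have h2 := Matrix.mul_nonsing_inv (h x) hu
    have h3 := congrFun (congrFun h2 d) l
    rw [Matrix.mul_apply, Matrix.one_apply] at h3
    rw [← h3]
    exact Finset.sum_congr rfl fun c _ => by rw [hs c d]
  unfold SN.Chr
  calc ∑ c, h x c d * (1 / 2 * ∑ l, (h x)⁻¹ c l * (SN.pd a (fun y => h y b l) x
        + SN.pd b (fun y => h y a l) x - SN.pd l (fun y => h y a b) x))
      = 1 / 2 * ∑ l, (∑ c, h x c d * (h x)⁻¹ c l) * (SN.pd a (fun y => h y b l) x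
        + SN.pd b (fun y => h y a l) x - SN.pd l (fun y => h y a b) x) := by
        simp only [Finset.mul_sum, Finset.sum_mul]
        rw [Finset.sum_comm]
        refine Finset.sum_congr rfl fun i _ => Finset.sum_congr rfl fun j _ => ?_
        ring
    _ = _ := by
        simp only [h1]
        simp

/-- Koszul's formula in coordinates -/
theorem koszul (h : SN.MF n) (x : SN.EE n) (hd : ∀ a b, DifferentiableAt ℝ (fun y => h y a b) x)
    (hs : ∀ᶠ y in 𝓝 x, ∀ a b, h y a b = h y b a) (hu : IsUnit (h x).det)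
    (X Y Z : SN.EE n → SN.EE n) (hX : ∀ a, DifferentiableAt ℝ (fun y => X y a) x)
    (hY : ∀ a, DifferentiableAt ℝ (fun y => Y y a) x)
    (hZ : ∀ a, DifferentiableAt ℝ (fun y => Z y a) x) :
    2 * SN.ip h x (fun c => fderiv ℝ (fun y => Y y c) x (X x)
        + ∑ a, ∑ b, SN.Chr h a b c x * X x a * Y x b) (fun d => Z x d) =
      fderiv ℝ (fun y => SN.ip h y (fun a => Y y a) (fun a => Z y a)) x (X x)
      + fderiv ℝ (fun y => SN.ip h y (fun a => X y a) (fun a => Z y a)) x (Y x)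
      - fderiv ℝ (fun y => SN.ip h y (fun a => X y a) (fun a => Y y a)) x (Z x)
      + SN.ip h x (fun c => fderiv ℝ (fun y => Y y c) x (X x) - fderiv ℝ (fun y => X y c) x (Y x))
        (fun d => Z x d)
      - SN.ip h x (fun c => fderiv ℝ (fun y => Z y c) x (X x) - fderiv ℝ (fun y => X y c) x (Z x))
        (fun d => Y x d)
      - SN.ip h x (fun c => fderiv ℝ (fun y => Z y c) x (Y x) - fderiv ℝ (fun y => Y y c) x (Z x))
        (fun d => X x d) := by
  have hsx : ∀ a b, h x a b = h x b a := hs.self_of_nhds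
  have hch : SN.ip h x (fun c => ∑ a, ∑ b, SN.Chr h a b c x * X x a * Y x b) (fun d => Z x d) =
      1 / 2 * (S3 h x (fun a => X x a) (fun a => Y x a) (fun a => Z x a)
        + S3 h x (fun a => Y x a) (fun a => X x a) (fun a => Z x a)
        - S3 h x (fun a => Z x a) (fun a => X x a) (fun a => Y x a)) := by
    have e1 : SN.ip h x (fun c => ∑ a, ∑ b, SN.Chr h a b c x * X x a * Y x b) (fun d => Z x d) =
        ∑ a, ∑ b, ∑ d, (∑ c, h x c d * SN.Chr h a b c x) * X x a * Y x b * Z x d := by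
      rw [ip_sum]
      refine Finset.sum_congr rfl fun a _ => ?_
      rw [ip_sum]
      refine Finset.sum_congr rfl fun b _ => ?_
      unfold SN.ip
      rw [Finset.sum_comm]
      refine Finset.sum_congr rfl fun d _ => ?_
      simp only [Finset.sum_mul]
      refine Finset.sum_congr rfl fun c _ => ?_
      ring
    rw [e1]
    simp only [chr_low h x hsx hu]
    have e2 : S3 h x (fun a => Y x a) (fun a => X x a) (fun a => Z x a) =
        ∑ a, ∑ b, ∑ d, SN.pd b (fun y => h y a d) x * X x a * Y x b * Z x d := by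
      unfold S3
      rw [Finset.sum_comm]
      refine Finset.sum_congr rfl fun a _ => Finset.sum_congr rfl fun b _ =>
        Finset.sum_congr rfl fun d _ => ?_
      ring
    have e3 : S3 h x (fun a => Z x a) (fun a => X x a) (fun a => Y x a) =
        ∑ a, ∑ b, ∑ d, SN.pd d (fun y => h y a b) x * X x a * Y x b * Z x d := by
      unfold S3
      rw [Finset.sum_comm]
      refine Finset.sum_congr rfl fun a _ => ?_
      rw [Finset.sum_comm]
      refine Finset.sum_congr rfl fun b _ => Finset.sum_congr rfl fun d _ => ?_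
      ring
    rw [e2, e3]
    unfold S3
    simp only [← Finset.sum_add_distrib, ← Finset.sum_sub_distrib, Finset.mul_sum]
    refine Finset.sum_congr rfl fun a _ => Finset.sum_congr rfl fun b _ =>
      Finset.sum_congr rfl fun d _ => ?_
    ring
  rw [ip_add, hch, fd_ip h x (X x) hd Y Z hY hZ, fd_ip h x (Y x) hd X Z hX hZ,
    fd_ip h x (Z x) hd X Y hX hY, ip_sub, ip_sub, ip_sub,
    ip_comm hsx (fun c => Y x c) (fun d => fderiv ℝ (fun y => Z y d) x (X x)),
    ip_comm hsx (fun c => X x c) (fun d => fderiv ℝ (fun y => Z y d) x (Y x)),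
    ip_comm hsx (fun c => X x c) (fun d => fderiv ℝ (fun y => Y y d) x (Z x))]
  ring

/-- nondegeneracy -/
theorem ip_nondeg (h : SN.MF n) (x : SN.EE n) (hs : ∀ a b, h x a b = h x b a)
    (hu : IsUnit (h x).det) (w : Fin (n + 1) → ℝ) (hw : ∀ v, SN.ip h x w v = 0) : w = 0 := by
  have h1 : Matrix.mulVec (h x) w = 0 := by
    funext j
    have h2 := hw (Pi.single j 1)
    unfold SN.ip at h2
    simp only [Matrix.mulVec, dotProduct, Pi.zero_apply]
    rw [← h2]
    refine Finset.sum_congr rfl fun i _ => ?_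
    rw [Finset.sum_eq_single j]
    · rw [Pi.single_eq_same, hs j i]
      ring
    · intro b _ hb
      rw [Pi.single_eq_of_ne hb]
      ring
    · intro hj
      exact absurd (Finset.mem_univ j) hj
  by_contra hne
  exact hu.ne_zero (Matrix.exists_mulVec_eq_zero_iff.mp ⟨w, hne, h1⟩)

end gen

/-! ### The linear fields -/

/-- quaternions as `ℝ⁴` -/
noncomputable def qL : TS.HH ≃L[ℝ] SN.EE 3 :=
  Quaternion.linearIsometryEquivTuple.toContinuousLinearEquiv

theorem ofQ_qL (q : TS.HH) : ofQ q = qL q := rfl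

theorem toQ_qL (x : SN.EE 3) : TS.toQ x = qL.symm x := rfl

theorem ofQ_toQ (x : SN.EE 3) : ofQ (TS.toQ x) = x := by
  rw [ofQ_qL, toQ_qL, ContinuousLinearEquiv.apply_symm_apply]

theorem toQ_ofQ (q : TS.HH) : TS.toQ (ofQ q) = q := by
  rw [ofQ_qL, toQ_qL, ContinuousLinearEquiv.symm_apply_apply]

theorem norm_toQ (x : SN.EE 3) : ‖TS.toQ x‖ = ‖x‖ :=
  Quaternion.linearIsometryEquivTuple.symm.norm_map x

theorem norm_ofQ (q : TS.HH) : ‖ofQ q‖ = ‖q‖ :=
  Quaternion.linearIsometryEquivTuple.norm_map q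

/-- right multiplication by `e_i` -/
noncomputable def RL (i : Fin 3) : SN.EE 3 →L[ℝ] SN.EE 3 :=
  (qL : TS.HH →L[ℝ] SN.EE 3).comp (((ContinuousLinearMap.mul ℝ TS.HH).flip (TS.qe i)).comp
    (qL.symm : SN.EE 3 →L[ℝ] TS.HH))

theorem RL_apply (i : Fin 3) (x : SN.EE 3) : RL i x = qv i x := rfl

theorem hfd_qv (j : Fin 3) (c : Fin 4) (x : SN.EE 3) :
    HasFDerivAt (fun y : SN.EE 3 => qv j y c) ((EuclideanSpace.proj c : SN.EE 3 →L[ℝ] ℝ).comp (RL j)) x :=
  ((EuclideanSpace.proj c : SN.EE 3 →L[ℝ] ℝ).comp (RL j)).hasFDerivAt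

theorem fd_qv (j : Fin 3) (c : Fin 4) (x v : SN.EE 3) :
    fderiv ℝ (fun y : SN.EE 3 => qv j y c) x v = qv j v c := by
  rw [(hfd_qv j c x).fderiv]
  rfl

theorem fd_id (c : Fin 4) (x v : SN.EE 3) : fderiv ℝ (fun y : SN.EE 3 => y c) x v = v c := by
  have h : HasFDerivAt (fun y : SN.EE 3 => y c) (EuclideanSpace.proj c : SN.EE 3 →L[ℝ] ℝ) x :=
    (EuclideanSpace.proj c : SN.EE 3 →L[ℝ] ℝ).hasFDerivAt
  rw [h.fderiv]
  rfl

theorem qv_smul (j : Fin 3) (r : ℝ) (x : SN.EE 3) : qv j (r • x) = r • qv j x := by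
  rw [← RL_apply, ← RL_apply, map_smul]

theorem qv0 (x : SN.EE 3) : qv 0 x = WithLp.toLp 2 ![-x 1, x 0, x 3, -x 2] := by
  ext c
  fin_cases c <;> simp [qv, ofQ, TS.toQ, TS.qe]

theorem qv1 (x : SN.EE 3) : qv 1 x = WithLp.toLp 2 ![-x 2, -x 3, x 0, x 1] := by
  ext c
  fin_cases c <;> simp [qv, ofQ, TS.toQ, TS.qe]

theorem qv2 (x : SN.EE 3) : qv 2 x = WithLp.toLp 2 ![-x 3, x 2, -x 1, x 0] := by
  ext c
  fin_cases c <;> simp [qv, ofQ, TS.toQ, TS.qe]

/-- the bracket relations -/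
theorem brk (i j : Fin 3) (x : SN.EE 3) (c : Fin 4) :
    qv j (qv i x) c - qv i (qv j x) c = 2 * ∑ k, TS.eps i j k * qv k x c := by
  rw [Fin.sum_univ_three]
  fin_cases i <;> fin_cases j <;> fin_cases c <;> simp [qv0, qv1, qv2, TS.eps] <;> ring

theorem nsq (x : SN.EE 3) : ‖x‖ ^ 2 = x 0 ^ 2 + x 1 ^ 2 + x 2 ^ 2 + x 3 ^ 2 := by
  rw [EuclideanSpace.norm_sq_eq]
  simp [Fin.sum_univ_four, Real.norm_eq_abs, sq_abs]

theorem qv_perp (j : Fin 3) (x : SN.EE 3) : ∑ a, qv j x a * x a = 0 := by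
  rw [Fin.sum_univ_four]
  fin_cases j <;> simp [qv0, qv1, qv2] <;> ring

/-- expansion in the orthogonal basis `x, x e_1, x e_2, x e_3` -/
theorem expand (x : SN.EE 3) (w : Fin 4 → ℝ) (c : Fin 4) :
    ‖x‖ ^ 2 * w c = (∑ a, w a * x a) * x c + ∑ i, (∑ a, w a * qv i x a) * qv i x c := by
  rw [nsq, Fin.sum_univ_three]
  simp only [Fin.sum_univ_four]
  fin_cases c <;> simp [qv0, qv1, qv2] <;> ring

/-! ### The metric -/

section metric

variable (M : SN.RMetric 3)

theorem G_unit {x : SN.EE 3} (hx : x ≠ 0) : ‖(‖x‖⁻¹ • x : SN.EE 3)‖ = 1 := by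
  rw [norm_smul, norm_inv, norm_norm, inv_mul_cancel₀ (norm_ne_zero_iff.mpr hx)]

theorem G_ray {x : SN.EE 3} (hx : x ≠ 0) : M.G (‖x‖⁻¹ • x) = M.G x :=
  M.rays _ _ (inv_pos.mpr (norm_pos_iff.mpr hx))

theorem G_pos {x : SN.EE 3} (hx : x ≠ 0) : (M.G x).PosDef := by
  rw [← G_ray M hx]
  exact M.posDef _ (G_unit hx)

theorem G_rad {x : SN.EE 3} (hx : x ≠ 0) (i : Fin 4) : ∑ j, M.G x i j * x j = x i := by
  have h := M.radial _ (G_unit hx) i
  rw [G_ray M hx] at h
  simp only [PiLp.smul_apply, smul_eq_mul] at h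
  have hn : ‖x‖ ≠ 0 := norm_ne_zero_iff.mpr hx
  have h2 : ∑ j, M.G x i j * (‖x‖⁻¹ * x j) = ‖x‖⁻¹ * ∑ j, M.G x i j * x j := by
    rw [Finset.mul_sum]
    exact Finset.sum_congr rfl fun j _ => by ring
  rw [h2] at h
  exact mul_left_cancel₀ (inv_ne_zero hn) h

theorem cyl_symm {x : SN.EE 3} (hx : x ≠ 0) (a b : Fin 4) : SN.cyl M.G x a b = SN.cyl M.G x b a := by
  have h := (G_pos M hx).isHermitian.apply b a
  simp only [SN.cyl, Matrix.smul_apply, smul_eq_mul]
  rw [← h]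
  simp

theorem cyl_unit {x : SN.EE 3} (hx : x ≠ 0) : IsUnit (SN.cyl M.G x).det := by
  have hn : (‖x‖ ^ 2)⁻¹ ≠ 0 := inv_ne_zero (pow_ne_zero 2 (norm_ne_zero_iff.mpr hx))
  rw [SN.cyl, Matrix.det_smul]
  exact IsUnit.mk0 _ (mul_ne_zero (pow_ne_zero _ hn) (G_pos M hx).det_pos.ne')

theorem cyl_diff {x : SN.EE 3} (hx : x ≠ 0) (a b : Fin 4) :
    DifferentiableAt ℝ (fun y => SN.cyl M.G y a b) x := by
  have h1 : DifferentiableAt ℝ (fun y => M.G y a b) x :=
    ((M.smooth a b).contDiffAt (isOpen_compl_singleton.mem_nhds hx)).differentiableAt (by simp)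
  have h2 : DifferentiableAt ℝ (fun y : SN.EE 3 => ‖y‖ ^ 2) x := differentiableAt_id.norm_sq ℝ
  have h3 : ‖x‖ ^ 2 ≠ 0 := pow_ne_zero 2 (norm_ne_zero_iff.mpr hx)
  exact (h2.inv h3).mul h1

theorem ip_cyl (x : SN.EE 3) (u v : Fin 4 → ℝ) :
    SN.ip (SN.cyl M.G) x u v = SN.ip M.G x u v / ‖x‖ ^ 2 := by
  unfold SN.ip SN.cyl
  rw [Finset.sum_div]
  refine Finset.sum_congr rfl fun i _ => ?_
  rw [Finset.sum_div]
  refine Finset.sum_congr rfl fun j _ => ?_
  rw [Matrix.smul_apply, smul_eq_mul, div_eq_mul_inv]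
  ring

/-- `h(w, x) = w·x/|x|²` -/
theorem ip_rad {x : SN.EE 3} (hx : x ≠ 0) (w : Fin 4 → ℝ) :
    SN.ip (SN.cyl M.G) x w (fun a => x a) = (∑ a, w a * x a) / ‖x‖ ^ 2 := by
  rw [ip_cyl]
  congr 1
  unfold SN.ip
  refine Finset.sum_congr rfl fun i _ => ?_
  have h : ∑ j, M.G x i j * w i * x j = w i * ∑ j, M.G x i j * x j := by
    rw [Finset.mul_sum]
    exact Finset.sum_congr rfl fun j _ => by ring
  rw [h, G_rad M hx]

/-- Gram matrix as function on `ℝ⁴` -/
noncomputable def F (j k : Fin 3) (y : SN.EE 3) : ℝ :=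
  SN.ip (SN.cyl M.G) y (fun a => qv j y a) (fun a => qv k y a)

theorem g3_F (q : TS.HH) (j k : Fin 3) : g3 M.G q j k = F M j k (ofQ q) := by
  unfold F
  rw [ip_cyl, norm_ofQ]
  rfl

theorem g3_F' (x : SN.EE 3) (j k : Fin 3) : g3 M.G (TS.toQ x) j k = F M j k x := by
  rw [g3_F, ofQ_toQ]

theorem E_g3 (i j k : Fin 3) (x : SN.EE 3) :
    TS.E i (fun q => g3 M.G q j k) (TS.toQ x) = fderiv ℝ (F M j k) x (qv i x) := by
  have h1 : (fun q => g3 M.G q j k) = F M j k ∘ qL := funext fun q => g3_F M q j k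
  unfold TS.E
  rw [h1, qL.comp_right_fderiv, ← ofQ_qL, ofQ_toQ]
  rfl

theorem F_ray (j k : Fin 3) (r : ℝ) (hr : 0 < r) (x : SN.EE 3) : F M j k (r • x) = F M j k x := by
  unfold F
  rw [ip_cyl, ip_cyl, qv_smul, qv_smul, norm_smul, Real.norm_eq_abs, mul_pow, sq_abs]
  unfold SN.ip
  rw [M.rays r x hr]
  have h : ∀ i l, M.G x i l * (r • qv j x : SN.EE 3) i * (r • qv k x : SN.EE 3) l =
      r ^ 2 * (M.G x i l * qv j x i * qv k x l) := by
    intro i l
    simp only [PiLp.smul_apply, smul_eq_mul]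
    ring
  simp only [h, ← Finset.mul_sum]
  rw [mul_div_mul_left _ _ (pow_ne_zero 2 hr.ne')]

theorem F_diff {x : SN.EE 3} (hx : x ≠ 0) (j k : Fin 3) : DifferentiableAt ℝ (F M j k) x := by
  unfold F SN.ip
  refine DifferentiableAt.fun_sum fun i _ => DifferentiableAt.fun_sum fun l _ => ?_
  exact ((cyl_diff M hx i l).mul (hfd_qv j i x).differentiableAt).mul (hfd_qv k l x).differentiableAt

theorem F_rad {x : SN.EE 3} (hx : x ≠ 0) (j k : Fin 3) : fderiv ℝ (F M j k) x x = 0 := by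
  have h1 : HasFDerivAt (F M j k) (fderiv ℝ (F M j k) x) ((1 : ℝ) • x) := by
    rw [one_smul]
    exact (F_diff M hx j k).hasFDerivAt
  have h2 : HasDerivAt (fun t : ℝ => t • x) x 1 := by
    have := (hasDerivAt_id (1 : ℝ)).smul_const x
    simpa using this
  have h3 : HasDerivAt (F M j k ∘ fun t : ℝ => t • x) (fderiv ℝ (F M j k) x x) 1 :=
    h1.comp_hasDerivAt 1 h2
  have h4 : (fun t : ℝ => F M j k (t • x)) =ᶠ[𝓝 1] fun _ => F M j k x := by
    filter_upwards [lt_mem_nhds (zero_lt_one : (0:ℝ) < 1)] with t ht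
    exact F_ray M j k t ht x
  exact (h3.congr_of_eventuallyEq h4.symm).unique (hasDerivAt_const 1 (F M j k x))

theorem F_perp {x : SN.EE 3} (hx : x ≠ 0) (j : Fin 3) (v : SN.EE 3) :
    fderiv ℝ (fun y => SN.ip (SN.cyl M.G) y (fun a => qv j y a) (fun a => y a)) x v = 0 := by
  have h4 : (fun y => SN.ip (SN.cyl M.G) y (fun a => qv j y a) (fun a => y a)) =ᶠ[𝓝 x]
      fun _ => (0 : ℝ) := by
    filter_upwards [isOpen_compl_singleton.mem_nhds hx] with y hy
    rw [ip_rad M hy, qv_perp, zero_div]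
  rw [h4.fderiv_eq]
  simp

theorem cvd_eq (x : SN.EE 3) (i j : Fin 3) :
    (fun c => cvd (SN.cyl M.G) i j c x) = fun c => qv j (qv i x) c
      + ∑ a, ∑ b, SN.Chr (SN.cyl M.G) a b c x * qv i x a * qv j x b := by
  funext c
  unfold cvd
  rw [fd_qv]

/-- `h(∇_{X_i} X_j, X_k)` -/
theorem low_k {x : SN.EE 3} (hx : x ≠ 0) (i j k : Fin 3) :
    SN.ip (SN.cyl M.G) x (fun c => cvd (SN.cyl M.G) i j c x) (fun a => qv k x a) =
      TS.GamL (g3 M.G) i j k (TS.toQ x) := by
  have hs : ∀ᶠ y in 𝓝 x, ∀ a b, SN.cyl M.G y a b = SN.cyl M.G y b a := by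
    filter_upwards [isOpen_compl_singleton.mem_nhds hx] with y hy
    exact cyl_symm M hy
  have hk := koszul (SN.cyl M.G) x (cyl_diff M hx) hs (cyl_unit M hx) (qv i) (qv j) (qv k)
    (fun a => (hfd_qv i a x).differentiableAt) (fun a => (hfd_qv j a x).differentiableAt)
    (fun a => (hfd_qv k a x).differentiableAt)
  simp only [fd_qv, brk] at hk
  have e : ∀ (i j : Fin 3) (l : Fin 3), SN.ip (SN.cyl M.G) x
      (fun c => 2 * ∑ k, TS.eps i j k * qv k x c) (fun d => qv l x d) =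
      2 * ∑ k, TS.eps i j k * g3 M.G (TS.toQ x) k l := by
    intro i j l
    rw [ip_smul, ip_sum]
    congr 1
    refine Finset.sum_congr rfl fun m _ => ?_
    rw [ip_smul, g3_F']
    rfl
  have hF : ∀ j k, (fun y => SN.ip (SN.cyl M.G) y (fun a => qv j y a) (fun a => qv k y a)) =
    F M j k := fun _ _ => rfl
  rw [e, e, e, hF, hF, hF] at hk
  rw [cvd_eq]
  unfold TS.GamL
  rw [E_g3, E_g3, E_g3]
  simp only [Finset.sum_sub_distrib]
  linarith

/-- `h(∇_{X_i} X_j, x) = 0` -/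
theorem low_x {x : SN.EE 3} (hx : x ≠ 0) (i j : Fin 3) :
    SN.ip (SN.cyl M.G) x (fun c => cvd (SN.cyl M.G) i j c x) (fun a => x a) = 0 := by
  have hs : ∀ᶠ y in 𝓝 x, ∀ a b, SN.cyl M.G y a b = SN.cyl M.G y b a := by
    filter_upwards [isOpen_compl_singleton.mem_nhds hx] with y hy
    exact cyl_symm M hy
  have hid : ∀ a : Fin 4, DifferentiableAt ℝ (fun y : SN.EE 3 => y a) x := fun a =>
    (EuclideanSpace.proj a : SN.EE 3 →L[ℝ] ℝ).differentiableAt
  have hk := koszul (SN.cyl M.G) x (cyl_diff M hx) hs (cyl_unit M hx) (qv i) (qv j) (fun y => y)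
    (fun a => (hfd_qv i a x).differentiableAt) (fun a => (hfd_qv j a x).differentiableAt) hid
  simp only [fd_qv, brk, fd_id, sub_self] at hk
  have hF : (fun y => SN.ip (SN.cyl M.G) y (fun a => qv i y a) (fun a => qv j y a)) = F M i j := rfl
  rw [F_perp M hx, F_perp M hx, hF, F_rad M hx] at hk
  have e0 : ∀ v : Fin 4 → ℝ, SN.ip (SN.cyl M.G) x (fun _ => 0) v = 0 := by
    intro v
    simp [SN.ip]
  rw [e0, e0] at hk
  have e1 : SN.ip (SN.cyl M.G) x (fun c => 2 * ∑ k, TS.eps i j k * qv k x c)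
      (fun d => x d) = 0 := by
    rw [ip_rad M hx]
    have : ∀ a, (2 * ∑ k, TS.eps i j k * qv k x a) * x a =
        ∑ k, 2 * TS.eps i j k * (qv k x a * x a) := by
      intro a
      rw [Finset.mul_sum, Finset.sum_mul]
      exact Finset.sum_congr rfl fun k _ => by ring
    simp only [this]
    rw [Finset.sum_comm]
    simp only [← Finset.mul_sum, qv_perp]
    simp
  rw [e1] at hk
  rw [cvd_eq]
  linarith

/-- a vector is determined by its products with `x e_k` and `x` -/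
theorem determ {x : SN.EE 3} (hx : x ≠ 0) (w : Fin 4 → ℝ)
    (h1 : ∀ k, SN.ip (SN.cyl M.G) x w (fun a => qv k x a) = 0)
    (h2 : SN.ip (SN.cyl M.G) x w (fun a => x a) = 0) : w = 0 := by
  refine ip_nondeg (SN.cyl M.G) x (cyl_symm M hx) (cyl_unit M hx) w fun v => ?_
  have hn : ‖x‖ ^ 2 ≠ 0 := pow_ne_zero 2 (norm_ne_zero_iff.mpr hx)
  have hsx := cyl_symm M hx
  have e1 : ‖x‖ ^ 2 * SN.ip (SN.cyl M.G) x w v = 0 := by
    rw [ip_comm hsx, ← ip_smul]
    have e2 : (fun c => ‖x‖ ^ 2 * v c) = fun c => (∑ a, v a * x a) * x c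
        + ∑ i, (∑ a, v a * qv i x a) * qv i x c := funext fun c => expand x v c
    rw [e2, ip_add, ip_smul, ip_sum, ip_comm hsx, h2]
    have e3 : ∀ i, SN.ip (SN.cyl M.G) x (fun c => (∑ a, v a * qv i x a) * qv i x c) w = 0 := by
      intro i
      rw [ip_smul, ip_comm hsx, h1 i, mul_zero]
    simp only [e3]
    simp
  exact (mul_eq_zero.mp e1).resolve_left hn

theorem qv_indep {x : SN.EE 3} (hx : x ≠ 0) (v : Fin 3 → ℝ) (h : ∀ c, ∑ k, v k * qv k x c = 0) :
    v = 0 := by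
  have hn : ‖x‖ ^ 2 ≠ 0 := pow_ne_zero 2 (norm_ne_zero_iff.mpr hx)
  have h0 := h 0
  have h1 := h 1
  have h2 := h 2
  have h3 := h 3
  simp only [Fin.sum_univ_three, qv0, qv1, qv2] at h0 h1 h2 h3
  simp at h0 h1 h2 h3
  have a0 : ‖x‖ ^ 2 * v 0 = 0 := by
    rw [nsq]
    linear_combination (-x 1) * h0 + x 0 * h1 + x 3 * h2 - x 2 * h3
  have a1 : ‖x‖ ^ 2 * v 1 = 0 := by
    rw [nsq]
    linear_combination (-x 2) * h0 - x 3 * h1 + x 0 * h2 + x 1 * h3
  have a2 : ‖x‖ ^ 2 * v 2 = 0 := by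
    rw [nsq]
    linear_combination (-x 3) * h0 + x 2 * h1 - x 1 * h2 + x 0 * h3
  funext i
  fin_cases i
  · exact (mul_eq_zero.mp a0).resolve_left hn
  · exact (mul_eq_zero.mp a1).resolve_left hn
  · exact (mul_eq_zero.mp a2).resolve_left hn

theorem g3_symm {x : SN.EE 3} (hx : x ≠ 0) (j k : Fin 3) :
    g3 M.G (TS.toQ x) j k = g3 M.G (TS.toQ x) k j := by
  rw [g3_F', g3_F']
  exact ip_comm (cyl_symm M hx) _ _

theorem g3_unit {x : SN.EE 3} (hx : x ≠ 0) : IsUnit (g3 M.G (TS.toQ x)).det := by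
  refine IsUnit.mk0 _ fun h0 => ?_
  obtain ⟨v, hv, h1⟩ := Matrix.exists_mulVec_eq_zero_iff.mpr h0
  refine hv (qv_indep hx v ?_)
  have h2 : (fun c => ∑ k, v k * qv k x c) = 0 := by
    refine determ M hx _ (fun k => ?_) ?_
    · rw [ip_sum]
      have h3 := congrFun h1 k
      simp only [Matrix.mulVec, dotProduct, Pi.zero_apply] at h3
      rw [← h3]
      refine Finset.sum_congr rfl fun m _ => ?_
      rw [ip_smul, g3_symm M hx k m, g3_F', mul_comm]
      rfl
    · rw [ip_sum]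
      refine Finset.sum_eq_zero fun m _ => ?_
      rw [ip_smul, ip_rad M hx, qv_perp, zero_div, mul_zero]
  exact fun c => congrFun h2 c

theorem Gam_low {x : SN.EE 3} (hx : x ≠ 0) (i j l : Fin 3) :
    ∑ k, TS.Gam (g3 M.G) i j k (TS.toQ x) * g3 M.G (TS.toQ x) k l =
      TS.GamL (g3 M.G) i j l (TS.toQ x) := by
  have h1 : ∀ m, ∑ k, (g3 M.G (TS.toQ x))⁻¹ k m * g3 M.G (TS.toQ x) k l =
      if l = m then 1 else 0 := by
    intro m
    have h2 := Matrix.mul_nonsing_inv (g3 M.G (TS.toQ x)) (g3_unit M hx)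
    have h3 := congrFun (congrFun h2 l) m
    rw [Matrix.mul_apply, Matrix.one_apply] at h3
    rw [← h3]
    exact Finset.sum_congr rfl fun k _ => by rw [g3_symm M hx k l, mul_comm]
  unfold TS.Gam
  calc ∑ k, (∑ m, (g3 M.G (TS.toQ x))⁻¹ k m * TS.GamL (g3 M.G) i j m (TS.toQ x))
        * g3 M.G (TS.toQ x) k l
      = ∑ m, (∑ k, (g3 M.G (TS.toQ x))⁻¹ k m * g3 M.G (TS.toQ x) k l)
        * TS.GamL (g3 M.G) i j m (TS.toQ x) := by
        simp only [Finset.sum_mul]
        rw [Finset.sum_comm]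
        refine Finset.sum_congr rfl fun m _ => Finset.sum_congr rfl fun k _ => ?_
        ring
    _ = _ := by
        simp only [h1]
        simp

end metric

end C

/-- **T3C.** -/
theorem t_T3C : A_T3C := by
  intro M x hx i j c
  have h : (fun c => cvd (SN.cyl M.G) i j c x
      - ∑ k, TS.Gam (g3 M.G) i j k (TS.toQ x) * qv k x c) = 0 := by
    refine C.determ M hx _ (fun l => ?_) ?_
    · rw [C.ip_sub, C.low_k M hx, C.ip_sum, ← C.Gam_low M hx, sub_eq_zero]
      refine Finset.sum_congr rfl fun k _ => ?_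
      rw [C.ip_smul, C.g3_F']
      rfl
    · rw [C.ip_sub, C.low_x M hx, C.ip_sum, zero_sub, neg_eq_zero]
      refine Finset.sum_eq_zero fun k _ => ?_
      rw [C.ip_smul, C.ip_rad M hx, C.qv_perp, zero_div, mul_zero]
  exact sub_eq_zero.mp (congrFun h c)

end Pool.Agent.Helper47.T3
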